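import Pool.Agent.Z476.Par

/-!
# A prime between `√N` and `4 √N` plus a number with at most five prime factors, every large even `N`

Rivera's conjecture: every even `N > 4` is `p + q` with primes `p`, `q` and `√N < p < 4 √N`.  Here every
sufficiently large even `N`, without exceptions, is the sum of a prime `p` in this window and of a number with
at most five prime factors, all of them at least `N ^ (1/17)`, and the number of these `p` has the expected order
`𝔖(N) √N / (log N) ^ 2`.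
-/

set_option autoImplicit false

open Finset Filter

namespace Pool.Agent.Results.MP_b454d1_nt.EveryEvenFivePrimes

/-- the variable part of the singular series of the Goldbach problem -/
noncomputable def sing (N : ℕ) : ℝ :=
  ∏ p ∈ N.primeFactors.erase 2, (((p : ℝ) - 1) / ((p : ℝ) - 2))

open Classical in
/-- The number of the primes `p < N` with `a < p < b` such that `N - p` has at most `r` prime
factors (counted with multiplicity), all of them at least `w`. -/
noncomputable def inWin (r : ℕ) (w a b : ℝ) (N : ℕ) : ℕ :=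
  ((range N).filter (fun p : ℕ => p.Prime ∧ a < p ∧ (p : ℝ) < b ∧
    (N - p).primeFactorsList.length ≤ r ∧
    ∀ q : ℕ, q.Prime → q ∣ (N - p) → w ≤ q)).card

open Classical in
lemma gen (r : ℕ) (θ η : ℝ) (hθ0 : 0 < θ) (hθ1 : θ ≤ 1) (hη : η < θ / 8)
    (hr : 2 / θ + Real.log 4 / Real.log 3 < r + 1) :
    ∃ δ : ℝ, 0 < δ ∧ ∃ N₀ : ℕ, ∀ N : ℕ, N₀ ≤ N → Even N → ∀ x : ℝ, (N : ℝ) ^ θ ≤ x → x ≤ N / 2 →
      δ * sing N * (x / Real.log N ^ 2) ≤ (inWin r ((N : ℝ) ^ η) (x / 2) x N : ℝ) := by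
  obtain ⟨δ, hδ, N0, H⟩ := Pool.Agent.Z476.all r θ η hθ0 hθ1 hη hr
  refine ⟨δ, hδ, max N0 1, fun N hN hev x hx1 hx2 => ?_⟩
  have h1 := H N ((le_max_left _ _).trans hN) hev x hx1 hx2
  have h2 : sing N = Pool.Agent.Y882.sgs N := rfl
  rw [h2]
  refine h1.trans ?_
  have hN1 : 1 ≤ N := (le_max_right _ _).trans hN
  have hNr : (1 : ℝ) ≤ N := by exact_mod_cast hN1
  unfold inWin
  have h3 : Pool.Agent.Z476.gd r x ((N : ℝ) ^ η) N ⊆
      (range N).filter (fun p : ℕ => p.Prime ∧ x / 2 < p ∧ (p : ℝ) < x ∧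
        (N - p).primeFactorsList.length ≤ r ∧
        ∀ q : ℕ, q.Prime → q ∣ (N - p) → (N : ℝ) ^ η ≤ q) := by
    intro p hp
    unfold Pool.Agent.Z476.gd at hp
    rw [mem_filter] at hp ⊢
    obtain ⟨a1, a2, a3, a4, a5, a6⟩ := hp
    refine ⟨?_, a2, a3, a4, a5, a6⟩
    rw [mem_range]
    have : (p : ℝ) < N := by linarith
    exact_mod_cast this
  exact_mod_cast card_le_card h3

open Classical in
/-- **Every large even number is a prime of Rivera's window plus a number with at most five prime factors.**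
There are `δ > 0` and `N₀` such that every even `N ≥ N₀` has at least `δ sing N √N / (log N) ^ 2` primes `p` with
`√N < p < 4 √N` such that `N - p` has at most five prime factors, all of them at least `N ^ (1/17)`. -/
theorem result :
    ∃ δ : ℝ, 0 < δ ∧ ∃ N₀ : ℕ, ∀ N : ℕ, N₀ ≤ N → Even N →
      δ * sing N * (√(N : ℝ) / Real.log N ^ 2) ≤
        (inWin 5 ((N : ℝ) ^ (1 / 17 : ℝ)) √(N : ℝ) (4 * √(N : ℝ)) N : ℝ) := by
  have hl3 : 0 < Real.log 3 := Real.log_pos (by norm_num)
  have hl : Real.log 4 / Real.log 3 < 2 := by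
    rw [div_lt_iff₀ hl3]
    have : 2 * Real.log 3 = Real.log 9 := by
      rw [show (9 : ℝ) = 3 ^ 2 by norm_num, Real.log_pow]
      norm_num
    rw [this]
    exact Real.log_lt_log (by norm_num) (by norm_num)
  obtain ⟨δ, hδ, N0, H⟩ := gen 5 (1 / 2) (1 / 17) (by norm_num) (by norm_num) (by norm_num)
    (by push_cast; norm_num; linarith)
  refine ⟨δ, hδ, max N0 64, fun N hN hev => ?_⟩
  have hN64 : 64 ≤ N := (le_max_right _ _).trans hN
  have hNr : (64 : ℝ) ≤ N := by exact_mod_cast hN64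
  have hs0 : 0 ≤ √(N : ℝ) := Real.sqrt_nonneg _
  have hs8 : 8 ≤ √(N : ℝ) := Real.le_sqrt_of_sq_le (by linarith)
  have hss : √(N : ℝ) * √(N : ℝ) = N := Real.mul_self_sqrt (by linarith)
  have h1 := H N ((le_max_left _ _).trans hN) hev (4 * √(N : ℝ))
    (by rw [← Real.sqrt_eq_rpow]; linarith) (by nlinarith)
  have hsing : 0 ≤ sing N := by
    have : sing N = Pool.Agent.Y882.sgs N := rfl
    rw [this]
    linarith [Pool.Agent.Y882.one_le_sgs N]
  have h2 : δ * sing N * (√(N : ℝ) / Real.log N ^ 2) ≤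
      δ * sing N * (4 * √(N : ℝ) / Real.log N ^ 2) := by
    apply mul_le_mul_of_nonneg_left _ (mul_nonneg hδ.le hsing)
    apply div_le_div_of_nonneg_right _ (by positivity)
    linarith
  refine h2.trans (h1.trans ?_)
  unfold inWin
  have h3 : (range N).filter (fun p : ℕ => p.Prime ∧ 4 * √(N : ℝ) / 2 < p ∧ (p : ℝ) < 4 * √(N : ℝ) ∧
        (N - p).primeFactorsList.length ≤ 5 ∧
        ∀ q : ℕ, q.Prime → q ∣ (N - p) → (N : ℝ) ^ (1 / 17 : ℝ) ≤ q) ⊆
      (range N).filter (fun p : ℕ => p.Prime ∧ √(N : ℝ) < p ∧ (p : ℝ) < 4 * √(N : ℝ) ∧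
        (N - p).primeFactorsList.length ≤ 5 ∧
        ∀ q : ℕ, q.Prime → q ∣ (N - p) → (N : ℝ) ^ (1 / 17 : ℝ) ≤ q) := by
    intro p hp
    rw [mem_filter] at hp ⊢
    obtain ⟨a1, a2, a3, a4, a5, a6⟩ := hp
    exact ⟨a1, a2, by linarith, a4, a5, a6⟩
  exact_mod_cast card_le_card h3

end Pool.Agent.Results.MP_b454d1_nt.EveryEvenFivePrimes
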