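import Pool.Agent.Z476.Sb
import Pool.Agent.Y882.Cum

/-!
# A prime between `√N` and `4 √N` plus a number with three or four prime factors: very few exceptions

Rivera's conjecture: every even `N > 4` is `p + q` with primes `p`, `q` and `√N < p < 4 √N`.  Here `p` is a prime in
this window and `N - p` has at most four prime factors for all but `C X ^ 0.0351`, at most three for all but
`C X ^ 0.2305` of the even `N ≤ X`, with the expected number of such `p` up to a constant.  The tool is a large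
sieve inequality for sparse sets `S`: the mean square of `∑_{n ∈ S} χ(n)` over the primitive characters of conductor
at most `Q` is at most `|S| Q ^ 2 + |S| ^ 2 Q X ^ ε`, since the sum of the Ramanujan sums `c_q(m)`, `q ≤ Q`, is at most
`Q d(m)`.
-/

set_option autoImplicit false

open Finset Filter

namespace Pool.Agent.Results.MP_b454d1_nt.VeryFewExceptions

/-- the variable part of the singular series of the Goldbach problem -/
noncomputable def sing (N : ℕ) : ℝ :=
  ∏ p ∈ N.primeFactors.erase 2, (((p : ℝ) - 1) / ((p : ℝ) - 2))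

open Classical in
/-- The number of the primes `p < N` with `√N < p < 4 √N` such that `N - p` has at most `r` prime
factors (counted with multiplicity), all of them at least `w`. -/
noncomputable def inSqrt (r : ℕ) (w : ℝ) (N : ℕ) : ℕ :=
  ((range N).filter (fun p : ℕ => p.Prime ∧ √(N : ℝ) < p ∧ (p : ℝ) < 4 * √(N : ℝ) ∧
    (N - p).primeFactorsList.length ≤ r ∧
    ∀ q : ℕ, q.Prime → q ∣ (N - p) → w ≤ q)).card

lemma log_lt : Real.log 4 / Real.log 3 < 53 / 42 := by
  have hl3 : 0 < Real.log 3 := Real.log_pos (by norm_num)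
  rw [div_lt_div_iff₀ hl3 (by norm_num)]
  have h1 : Real.log 4 * 42 = Real.log (4 ^ 42) := by rw [Real.log_pow]; push_cast; ring
  have h2 : 53 * Real.log 3 = Real.log (3 ^ 53) := by rw [Real.log_pow]; push_cast; ring
  rw [h1, h2]
  exact Real.log_lt_log (by norm_num) (by norm_num)

lemma log_gt : 5 / 4 < Real.log 4 / Real.log 3 := by
  have hl3 : 0 < Real.log 3 := Real.log_pos (by norm_num)
  rw [div_lt_div_iff₀ (by norm_num) hl3]
  have h1 : 5 * Real.log 3 = Real.log (3 ^ 5) := by rw [Real.log_pow]; push_cast; ring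
  have h2 : Real.log 4 * 4 = Real.log (4 ^ 4) := by rw [Real.log_pow]; push_cast; ring
  rw [h1, h2]
  exact Real.log_lt_log (by norm_num) (by norm_num)

open Classical in
lemma gen (r : ℕ) (c ζ a : ℝ) (hc : c = r + 1 - Real.log 4 / Real.log 3) (hc2 : 2 < c)
    (hζ : ζ ≤ 1 / (4 * c)) (ha : max (2 / c - 1 / 2) 0 < a) :
    ∃ δ C : ℝ, 0 < δ ∧ 0 < C ∧ ∀ X : ℕ, 1 ≤ X →
      (((Icc 1 X).filter (fun N : ℕ => Even N ∧
        (inSqrt r ((N : ℝ) ^ ζ) N : ℝ) < δ * sing N * (√(N : ℝ) / Real.log N ^ 2))).card : ℝ) ≤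
      C * (X : ℝ) ^ a := by
  obtain ⟨δ, hδ, Y0, H⟩ := Pool.Agent.Z476.few r (1 / 2) (by norm_num) (by norm_num) c hc
    (by linarith) (a - max (2 / c - 1 / 2) 0) (by linarith)
  have ha0 : 0 < a := lt_of_le_of_lt (le_max_right _ _) ha
  obtain ⟨C, hC, hcum⟩ := Pool.Agent.Y882.cum (fun N : ℕ => Even N ∧
        (inSqrt r ((N : ℝ) ^ ζ) N : ℝ) < δ * sing N * (√(N : ℝ) / Real.log N ^ 2)) a ha0
    (max Y0 64) (by
    intro Y hY
    have hY0 : Y0 ≤ Y := (le_max_left _ _).trans hY
    have hY3 : 64 ≤ Y := (le_max_right _ _).trans hY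
    have hYr : (64 : ℝ) ≤ Y := by exact_mod_cast hY3
    have hlY : 0 < Real.log Y := Real.log_pos (by linarith)
    have hsY : 0 < √(Y : ℝ) := Real.sqrt_pos.2 (by linarith)
    have hss : √(Y : ℝ) * √(Y : ℝ) = Y := Real.mul_self_sqrt (by linarith)
    have hs8 : 8 ≤ √(Y : ℝ) := Real.le_sqrt_of_sq_le (by linarith)
    have hxY : 4 * √(Y : ℝ) ≤ Y := by nlinarith
    have h1 := H Y hY0 (4 * √(Y : ℝ)) (by rw [← Real.sqrt_eq_rpow]; linarith) hxY
    have e1 : max (2 / c - 1 / 2) 0 + (a - max (2 / c - 1 / 2) 0) = a := by ring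
    rw [e1] at h1
    refine le_trans ?_ h1
    have hsub : (Ioc Y (2 * Y)).filter (fun N : ℕ => Even N ∧
        (inSqrt r ((N : ℝ) ^ ζ) N : ℝ) < δ * sing N * (√(N : ℝ) / Real.log N ^ 2)) ⊆
        (Ioc Y (2 * Y)).filter (fun n : ℕ => Even n ∧
          ((Pool.Agent.Z476.gd r (4 * √(Y : ℝ)) ((n : ℝ) ^ (1 / (4 * c))) n).card : ℝ) <
          δ * (4 * √(Y : ℝ)) / Real.log Y ^ 2 * Pool.Agent.Y882.sgs n) := by
      intro N hN
      rw [mem_filter, mem_Ioc] at hN ⊢
      obtain ⟨⟨hN1, hN2⟩, hev, hlt⟩ := hN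
      refine ⟨⟨hN1, hN2⟩, hev, ?_⟩
      have hN1r : (Y : ℝ) < N := by exact_mod_cast hN1
      have hN2r : (N : ℝ) ≤ 2 * Y := by exact_mod_cast hN2
      have hN0 : (1 : ℝ) ≤ N := by linarith
      have hsN1 : √(N : ℝ) < 2 * √(Y : ℝ) := by
        rw [Real.sqrt_lt' (by positivity), mul_pow, Real.sq_sqrt (by linarith)]
        linarith
      have hsN2 : √(Y : ℝ) ≤ √(N : ℝ) := Real.sqrt_le_sqrt hN1r.le
      have hlN : Real.log Y ≤ Real.log N := Real.log_le_log (by linarith) hN1r.le
      have hsg := Pool.Agent.Y882.one_le_sgs N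
      have hsing : sing N = Pool.Agent.Y882.sgs N := rfl
      have h3 : Pool.Agent.Z476.gd r (4 * √(Y : ℝ)) ((N : ℝ) ^ (1 / (4 * c))) N ⊆
          (range N).filter (fun p : ℕ => p.Prime ∧ √(N : ℝ) < p ∧ (p : ℝ) < 4 * √(N : ℝ) ∧
            (N - p).primeFactorsList.length ≤ r ∧
            ∀ q : ℕ, q.Prime → q ∣ (N - p) → (N : ℝ) ^ ζ ≤ q) := by
        intro p hp
        unfold Pool.Agent.Z476.gd at hp
        rw [mem_filter] at hp ⊢
        obtain ⟨a1, a2, a3, a4, a5, a6⟩ := hp
        refine ⟨?_, a2, by linarith, by linarith, a5, ?_⟩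
        · rw [mem_range]
          have : (p : ℝ) < N := by linarith
          exact_mod_cast this
        · intro q hq hqd
          exact (Real.rpow_le_rpow_of_exponent_le hN0 hζ).trans (a6 q hq hqd)
      have h4 : ((Pool.Agent.Z476.gd r (4 * √(Y : ℝ)) ((N : ℝ) ^ (1 / (4 * c))) N).card : ℝ) ≤
          (inSqrt r ((N : ℝ) ^ ζ) N : ℝ) := by
        unfold inSqrt
        exact_mod_cast card_le_card h3
      have h5 : δ * sing N * (√(N : ℝ) / Real.log N ^ 2) ≤
          δ * (4 * √(Y : ℝ)) / Real.log Y ^ 2 * Pool.Agent.Y882.sgs N := by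
        have h6 : √(N : ℝ) / Real.log N ^ 2 ≤ 4 * √(Y : ℝ) / Real.log Y ^ 2 := by
          apply div_le_div₀ (by positivity) (by linarith) (by positivity)
          exact pow_le_pow_left₀ hlY.le hlN 2
        rw [hsing]
        calc δ * Pool.Agent.Y882.sgs N * (√(N : ℝ) / Real.log N ^ 2) ≤
            δ * Pool.Agent.Y882.sgs N * (4 * √(Y : ℝ) / Real.log Y ^ 2) :=
              mul_le_mul_of_nonneg_left h6 (mul_nonneg hδ.le (by linarith))
          _ = _ := by ring
      linarith
    have := card_le_card hsub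
    exact_mod_cast this)
  exact ⟨δ, C, hδ, hC, hcum⟩

open Classical in
/-- **Rivera's window, three or four prime factors, very few exceptions.** There are `δ, C > 0` such that all even
`N ≤ X` with at most `C X ^ 0.0351` exceptions have at least `δ sing N √N / (log N) ^ 2` primes `p` with
`√N < p < 4 √N` such that `N - p` has at most four prime factors, all of them at least `N ^ (1/15)`; the same with at
most `C X ^ 0.2305` exceptions, three prime factors and `N ^ (1/11)`. -/
theorem result (r : ℕ) (a ζ : ℝ)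
    (hpar : (r = 3 ∧ a = 0.2305 ∧ ζ = 1 / 11) ∨ (r = 4 ∧ a = 0.0351 ∧ ζ = 1 / 15)) :
    ∃ δ C : ℝ, 0 < δ ∧ 0 < C ∧ ∀ X : ℕ, 1 ≤ X →
      (((Icc 1 X).filter (fun N : ℕ => Even N ∧
        (inSqrt r ((N : ℝ) ^ ζ) N : ℝ) < δ * sing N * (√(N : ℝ) / Real.log N ^ 2))).card : ℝ) ≤
      C * (X : ℝ) ^ a := by
  have h1 := log_lt
  have h2 := log_gt
  rcases hpar with ⟨rfl, rfl, rfl⟩ | ⟨rfl, rfl, rfl⟩
  · set c : ℝ := ((3 : ℕ) : ℝ) + 1 - Real.log 4 / Real.log 3 with hc
    have hc1 : 115 / 42 < c := by rw [hc]; push_cast; linarith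
    have hc2 : c < 11 / 4 := by rw [hc]; push_cast; linarith
    apply gen 3 c _ _ hc (by linarith)
    · rw [div_le_div_iff₀ (by norm_num) (by linarith)]
      linarith
    · apply max_lt _ (by norm_num)
      have : 2 / c < 0.7305 := by
        rw [div_lt_iff₀ (by linarith)]
        norm_num
        linarith
      norm_num at this ⊢
      linarith
  · set c : ℝ := ((4 : ℕ) : ℝ) + 1 - Real.log 4 / Real.log 3 with hc
    have hc1 : 157 / 42 < c := by rw [hc]; push_cast; linarith
    have hc2 : c < 15 / 4 := by rw [hc]; push_cast; linarith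
    apply gen 4 c _ _ hc (by linarith)
    · rw [div_le_div_iff₀ (by norm_num) (by linarith)]
      linarith
    · apply max_lt _ (by norm_num)
      have : 2 / c < 0.5351 := by
        rw [div_lt_iff₀ (by linarith)]
        norm_num
        linarith
      norm_num at this ⊢
      linarith

end Pool.Agent.Results.MP_b454d1_nt.VeryFewExceptions
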